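import Pool.Agent.R596.FPBridge
import Pool.Agent.R596.FtA

/-!
# No finite-to-one map from the finitary partitions of an infinite set to the set

In every model of Zermelo set theory (so in every model of ZF): if a set `a` is infinite, that is,
not in bijection with a natural number, then no function from the set of all finitary partitions
of `a` to `a` is finite-to-one.
-/

namespace Pool.Agent.Results.MP_ae0fd6_lc.NoFiniteToOne

open FirstOrder FirstOrder.Language
open Pool.Agent.Helper672.Plain (LSet Zermelo)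
open Pool.Agent.H310Cards
open Pool.Agent.R596Part

universe u

theorem result (M : Type u) [LSet.Structure M] [Zermelo M] (a b f : M)
    (hb : IsFinPartitionSet b a) (ha : ¬ IsFinite a) : ¬ IsFinToOne f b a := by
  letI := Pool.Agent.Helper672.Plain.toL (M := M)
  letI : Pool.Agent.Helper672.ZFA.IsModel M := Pool.Agent.Helper672.Plain.isModel_toL
  intro hf
  obtain ⟨h, hh, hh'⟩ := Pool.Agent.H310.exists_fun
    (α := Pool.Agent.Helper672.ZFA.El b)
    (β := Pool.Agent.Helper672.ZFA.El a) hf.1 (fun x => x.2)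
    fun z hz => Pool.Agent.H310.mem_El.1 hz
  have hj := Pool.Agent.R596.int_ptEl hb
  refine Pool.Agent.R596.no_fto_part (i := fun r => h (Pool.Agent.R596.ptEl hb r))
    (Pool.Agent.H310.not_finP (fun z => Pool.Agent.H310.mem_El) ha)
    (Pool.Agent.Helper672.ZFA.IntF.comp hh hj) fun y => ?_
  have hI : Pool.Agent.Helper672.ZFA.Int M
      (fun r : Pool.Agent.R596.FEq M (Pool.Agent.Helper672.ZFA.El a) =>
        h (Pool.Agent.R596.ptEl hb r) = y) :=
    Pool.Agent.Helper672.ZFA.Int.eq (Pool.Agent.Helper672.ZFA.IntF.comp hh hj)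
      (Pool.Agent.Helper672.ZFA.IntF.const y)
  have hI' : Pool.Agent.Helper672.ZFA.Int M
      (fun x : Pool.Agent.Helper672.ZFA.El b => h x = y) :=
    Pool.Agent.Helper672.ZFA.Int.eq hh (Pool.Agent.Helper672.ZFA.IntF.const y)
  have hfin : Pool.Agent.H310.FinP M
      (fun x : Pool.Agent.Helper672.ZFA.El b => h x = y) := by
    refine Pool.Agent.H310.finP_of_finite (t := hI'.small.elt) hI' (fun z => hI'.small.mem) ?_
    refine hf.2 y.1 y.2 _ fun x => ?_
    refine (hI'.small.mem (z := x)).trans ⟨?_, fun hx => ?_⟩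
    · rintro ⟨P, hP, rfl⟩
      exact (hh' P y).1 hP
    · obtain ⟨q, h1, h2⟩ := hx
      obtain ⟨x', y', h3, h4, h5⟩ := hf.1.1 q h2
      obtain ⟨rfl, -⟩ := Pool.Agent.Helper672.ZFA.op_inj
        ((Pool.Agent.H310.ordPair_iff.1 h1).symm.trans (Pool.Agent.H310.ordPair_iff.1 h5))
      exact ⟨⟨x, h3⟩, (hh' ⟨x, h3⟩ y).2 ⟨q, h1, h2⟩, rfl⟩
  exact Pool.Agent.H310.FinP.of_inj hI hj
    (fun r r' _ _ hrr => Pool.Agent.R596.ptEl_inj hb hrr) hfin fun r hr => hr

end Pool.Agent.Results.MP_ae0fd6_lc.NoFiniteToOne
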